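import Pool.Agent.Helper85_GEN.DLX
import Pool.Agent.Helper7_GEN.HMX
import Pool.Agent.Helper41_GEN.CTR
import Pool.Agent.Helper35_GEN.PIP
import Pool.Agent.Helper39_GEN.ROW
import Pool.Agent.Helper68_GEN.KD2
import Pool.Agent.Helper68_GEN.KOS
import Pool.Agent.Helper94_GEN.KOT
import Pool.Agent.Helper50_GEN.DBC
import Pool.Agent.Helper7_GEN.PAT
import Pool.Agent.Helper41_GEN.PAU
import Pool.Agent.Helper35_GEN.RGA
import Pool.Agent.Helper39_GEN.RGB
import Pool.Agent.Helper41_GEN.WCB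
import Pool.Agent.Helper41_GEN.FCT
import Pool.Agent.Helper3_GEN.EVB
import Pool.Agent.Helper92_GEN.PFT
import Pool.Agent.Helper87_GEN.ZAI
import Pool.Agent.Helper67_GEN.PRD

/-!
# Squad GEN, block PT: assembly of the patching theorem
-/

set_option autoImplicit false

namespace Pool.Agent.GEN.H60

open Pool.Agent.GEN Pool.Agent.GEN.PT

theorem dlx' : DlxStmt := PT.H85.dlx
theorem hmx' : HmxStmt := GEN.H7.hmx dlx'
theorem ctr' : CtrStmt := GEN.H41.ctrRow dlx' hmx'
theorem pip' : PipStmt := PT.H35.pip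
theorem row' : RowStmt := GEN.H39.row dlx' ctr' pip'
theorem kd2' : Kd2Stmt := GEN.H68.kd2
theorem kos' : KosStmt := GEN.H68.kos kd2'
theorem kot' : KotStmt := PT.H94.kot pip' kd2' kos'
theorem dbc' : DbcStmt := GEN.H50.dbc dlx' pip' row' kd2' kot'
theorem pat' : PatStmt := GEN.H7.pat pip' row' kot' dbc'
theorem pau' : PauStmt := GEN.H41.pau pip' pat'
theorem rgb' : RgbStmt := GEN.H39.rgb PT.H35.rga
theorem fct' : FctStmt := GEN.H41.fct GEN.H41.wcb
theorem evb' : EvbStmt := PT.H3.evb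
theorem pft' : PftStmt := PT.H92.pft GEN.H67.prd

/-- the patching theorem: final row of block PT -/
theorem zaiStmt : ZaiStmt := GEN.H87.zai pau' rgb' fct' evb' pft'

end Pool.Agent.GEN.H60
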